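import Pool.Agent.TH127.MO.Top

/-!
# MO functions with partial sums `O(1 / x)` are close to `μ(n) / n` at the primes

Let `f` be an MO function: `f` is multiplicative, `∑ f(n)` converges to `0` and `∑_k f(p ^ k)`
converges to a nonzero value for each prime `p`. Let `S_f(x) = ∑_{n ≤ x} f(n)`. The starting result
`OmegaInverse` says that `limsup x |S_f(x)| ≥ 1 / 2`, and that, if `S_f(x) = O(1 / x)`, then for each
`c < 1 / 2` the primes `p` with `p |S_f(p - 1)| > c` or `p |S_f(p)| > c` have divergent reciprocal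
sum.

We show: if `S_f(x) = O(1 / x)`, then the series `∑_p |1 + Re (p f(p))| / p` converges. So `f(p)` is
close to `-1 / p = μ(p) / p`, and for each `c < 1 / 2` the primes with `p |S_f(p - 1)| ≤ c` and
`p |S_f(p)| ≤ c` have convergent reciprocal sum, since `|p f(p)| ≤ 2 c` for them.

Proof. Let `|S_f(n)| ≤ K / n`. Then `|f(n)| ≤ 3 K / n`, and summation by parts gives
`|F(σ)| ≤ C σ` for the Dirichlet series `F(σ) = ∑ f(n) n ^ (-σ)`, `σ > 0`. The Euler product of
`F(σ)` converges absolutely, its factors at small primes have nonzero limits for `σ → 0`, and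
`log |F_p(σ)| ≥ Re f(p) p ^ (-σ) - C / p ^ 2` for large `p`. Hence
`∑_p Re f(p) p ^ (-σ) ≤ log σ + C`, while `∑_p p ^ (-1-σ) ≤ log (1 / σ) + C`. The sum of these is
`∑_p (1 + Re (p f(p))) p ^ (-1-σ) ≤ C`. The terms are not much smaller than zero, since the product
of the numbers `p |f(p)|` over any finite set of primes is at most `3 K`.
-/

set_option autoImplicit false

namespace Pool.Agent.Results.MP_a187e6_nt.NearMoebius

open Filter Pool.Agent.TH127.MO

/-- Let `f` be an MO function. If `S_f(x) = O(1 / x)`, then `∑_p |1 + Re (p f(p))| / p` converges. -/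
theorem result (f : ℕ → ℂ) (hf : IsMO f) (K : ℝ) (hK : ∀ x : ℝ, 1 ≤ x → ‖S f x‖ ≤ K / x) :
    Summable fun p : Nat.Primes => |1 + ((p : ℕ) : ℝ) * (f p).re| / ((p : ℕ) : ℝ) :=
  summable_dist hf hK

end Pool.Agent.Results.MP_a187e6_nt.NearMoebius
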